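import Mathlib

/-!
# Minimal topological groups and perfect homomorphisms

If `f : H → A` is a continuous closed homomorphism with compact kernel from a Hausdorff group to a minimal
(totally minimal) abelian group, then `H` is minimal (totally minimal).
-/

set_option autoImplicit false

universe u

namespace Pool.Agent.H769CMin

open Topology Filter Set

/-- a group with a topology is a minimal topological group if it is a Hausdorff topological group and no
Hausdorff group topology on it is strictly coarser -/
def IsMinimalGroup (G : Type u) [Group G] [t : TopologicalSpace G] : Prop :=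
  T2Space G ∧ IsTopologicalGroup G ∧
    ∀ s : TopologicalSpace G, @T2Space G s → @IsTopologicalGroup G s _ → t ≤ s → s = t

/-- a group with a topology is a totally minimal topological group if it is a Hausdorff topological group
and its quotient by every closed normal subgroup, with the quotient topology, is minimal -/
def IsTotallyMinimalGroup (G : Type u) [Group G] [TopologicalSpace G] : Prop :=
  T2Space G ∧ IsTopologicalGroup G ∧
    ∀ (N : Subgroup G) [N.Normal], IsClosed (N : Set G) → IsMinimalGroup (G ⧸ N)

/-- a topological group is c-minimal if every closed subgroup, with the subspace topology, is minimal -/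
def IsCMinimalGroup (G : Type u) [Group G] [TopologicalSpace G] : Prop :=
  ∀ H : Subgroup G, IsClosed (H : Set G) → IsMinimalGroup H

/-- a topological group is c-totally minimal if every closed subgroup, with the subspace topology, is
totally minimal -/
def IsCTotallyMinimalGroup (G : Type u) [Group G] [TopologicalSpace G] : Prop :=
  ∀ H : Subgroup G, IsClosed (H : Set G) → IsTotallyMinimalGroup H

/-- minimality in terms of continuous bijective homomorphisms: one direction, arbitrary target -/
theorem IsMinimalGroup.isInducing {G : Type u} [Group G] [t : TopologicalSpace G]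
    (h : IsMinimalGroup G) {H : Type*} [Group H] [TopologicalSpace H] [IsTopologicalGroup H]
    [T2Space H] (f : G →* H) (hf : Continuous f) (hb : Function.Injective f) : IsInducing f := by
  have h1 : @T2Space G (TopologicalSpace.induced f inferInstance) := by
    let _ : TopologicalSpace G := TopologicalSpace.induced f inferInstance
    exact T2Space.of_injective_continuous hb continuous_induced_dom
  have h2 : @IsTopologicalGroup G (TopologicalSpace.induced f inferInstance) _ :=
    topologicalGroup_induced f
  exact ⟨(h.2.2 _ h1 h2 (continuous_iff_le_induced.1 hf)).symm⟩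

/-- minimality in terms of continuous bijective homomorphisms: the other direction -/
theorem isMinimalGroup_of {G : Type u} [Group G] [t : TopologicalSpace G] [T2Space G]
    [IsTopologicalGroup G]
    (h : ∀ (H : Type u) [Group H] [TopologicalSpace H] [IsTopologicalGroup H] [T2Space H]
      (f : G →* H), Continuous f → Function.Bijective f → IsInducing f) : IsMinimalGroup G := by
  refine ⟨inferInstance, inferInstance, fun s hs1 hs2 hle => ?_⟩
  have hc : @Continuous G G t s (MonoidHom.id G) := continuous_id_iff_le.2 hle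
  have h1 : @IsInducing G G t s (MonoidHom.id G) :=
    @h G _ s hs2 hs1 (MonoidHom.id G) hc Function.bijective_id
  have h2 : t = TopologicalSpace.induced (MonoidHom.id G) s :=
    @IsInducing.eq_induced G G t s (MonoidHom.id G) h1
  rw [h2]
  exact induced_id.symm

/-- a topological isomorphism transports minimality -/
theorem IsMinimalGroup.of_iso {X Y : Type u} [Group X] [TopologicalSpace X] [T2Space X]
    [IsTopologicalGroup X] [Group Y] [TopologicalSpace Y] (hY : IsMinimalGroup Y)
    (φ : X →* Y) (hc : Continuous φ) (hb : Function.Bijective φ) (ho : IsClosedMap φ) :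
    IsMinimalGroup X := by
  have := hY.1
  have := hY.2.1
  have hemb : IsClosedEmbedding φ := .of_continuous_injective_isClosedMap hc hb.1 ho
  refine isMinimalGroup_of fun H _ _ _ _ f hf hfb => ?_
  let e : X ≃* Y := MulEquiv.ofBijective φ hb
  have hes : Continuous e.symm := by
    rw [continuous_iff_isClosed]
    intro s hs
    have : e.symm ⁻¹' s = φ '' s := by
      ext y
      constructor
      · intro hy
        exact ⟨e.symm y, hy, e.apply_symm_apply y⟩
      · rintro ⟨x, hx, rfl⟩
        change e.symm (e x) ∈ s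
        rwa [e.symm_apply_apply]
    rw [this]
    exact ho s hs
  have h1 : IsInducing (f.comp e.symm.toMonoidHom) :=
    hY.isInducing _ (hf.comp hes) (hfb.1.comp e.symm.injective)
  have h2 : (f : X → H) = (f.comp e.symm.toMonoidHom) ∘ φ := by
    funext x
    change f x = f (e.symm (e x))
    rw [e.symm_apply_apply]
  rw [h2]
  exact h1.comp hemb.isInducing

/-- a compact normal subgroup with minimal quotient -/
theorem isMinimalGroup_of_quotient {G : Type u} [Group G] [TopologicalSpace G] [T2Space G]
    [IsTopologicalGroup G] (N : Subgroup G) [N.Normal] (hN : IsCompact (N : Set G))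
    (hq : IsMinimalGroup (G ⧸ N)) : IsMinimalGroup G := by
  refine isMinimalGroup_of fun H _ _ _ _ f hf hfb => ?_
  have hMn : (N.map f).Normal := Subgroup.Normal.map inferInstance f hfb.2
  have hMc : IsCompact ((N.map f : Subgroup H) : Set H) := by
    rw [Subgroup.coe_map]
    exact hN.image hf
  have : IsClosed ((N.map f : Subgroup H) : Set H) := hMc.isClosed
  let F : G ⧸ N →* H ⧸ N.map f := QuotientGroup.map N (N.map f) f (Subgroup.le_comap_map f N)
  have hFmk : ∀ x : G, F (x : G ⧸ N) = ((f x : H) : H ⧸ N.map f) := fun x => rfl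
  have hFc : Continuous F := by
    have : Continuous (F ∘ (QuotientGroup.mk : G → G ⧸ N)) :=
      (QuotientGroup.continuous_mk.comp hf : Continuous fun x => ((f x : H) : H ⧸ N.map f))
    exact (QuotientGroup.isQuotientMap_mk _).continuous_iff.2 this
  have hFi : Function.Injective F := by
    rw [injective_iff_map_eq_one]
    intro x
    induction x using QuotientGroup.induction_on with
    | H x =>
    intro hx
    rw [hFmk, QuotientGroup.eq_one_iff] at hx
    obtain ⟨n, hn, hfn⟩ := hx
    rw [← hfb.1 hfn]
    exact (QuotientGroup.eq_one_iff n).2 hn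
  have hF := hq.isInducing F hFc hFi
  rw [IsTopologicalGroup.isInducing_iff_nhds_one] at hF ⊢
  refine le_antisymm ?_ ?_
  · rw [← map_one f]
    exact hf.continuousAt.tendsto.le_comap
  · intro W hW
    -- split the neighbourhood
    obtain ⟨U, hUo, hU1, hUW⟩ := exists_open_nhds_one_split hW
    -- the topology on the compact subgroup
    have hV' : ∃ V' ∈ 𝓝 (1 : H), ∀ n ∈ N, f n ∈ V' → n ∈ U := by
      have hc : IsCompact ((N : Set G) \ U) := hN.diff hUo
      have hc2 : IsCompact (f '' ((N : Set G) \ U)) := hc.image hf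
      refine ⟨(f '' ((N : Set G) \ U))ᶜ, hc2.isClosed.isOpen_compl.mem_nhds ?_, ?_⟩
      · rintro ⟨n, ⟨_, hnU⟩, hn1⟩
        rw [← map_one f] at hn1
        rw [hfb.1 hn1] at hnU
        exact hnU hU1
      · intro n hn hfn
        by_contra hnU
        exact hfn ⟨n, ⟨hn, hnU⟩, rfl⟩
    obtain ⟨V', hV', hVU⟩ := hV'
    obtain ⟨V, hV, hVV⟩ : ∃ V ∈ 𝓝 (1 : H), ∀ v ∈ V, ∀ w ∈ V, v⁻¹ * w ∈ V' := by
      obtain ⟨V, hV, h⟩ := exists_nhds_split_inv (G := H) hV'
      refine ⟨V⁻¹, inv_mem_nhds_one H hV, fun v hv w hw => ?_⟩
      have := h v⁻¹ hv w⁻¹ hw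
      rwa [div_eq_mul_inv, inv_inv] at this
    have hfV : f ⁻¹' V ∈ 𝓝 (1 : G) := by
      apply hf.continuousAt
      rwa [map_one]
    have hUV : U ∩ f ⁻¹' V ∈ 𝓝 (1 : G) := inter_mem (hUo.mem_nhds hU1) hfV
    have him : (QuotientGroup.mk '' (U ∩ f ⁻¹' V) : Set (G ⧸ N)) ∈ 𝓝 (1 : G ⧸ N) :=
      QuotientGroup.isOpenMap_coe.image_mem_nhds hUV
    rw [hF, mem_comap] at him
    obtain ⟨O', hO', hO'U⟩ := him
    rw [mem_comap]
    refine ⟨V ∩ (QuotientGroup.mk : H → H ⧸ N.map f) ⁻¹' O', inter_mem hV ?_, ?_⟩
    · exact QuotientGroup.continuous_mk.continuousAt hO'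
    · rintro x ⟨hxV, hxO⟩
      obtain ⟨u, ⟨huU, huV⟩, hux⟩ := hO'U (show (x : G ⧸ N) ∈ F ⁻¹' O' from hxO)
      have hn : u⁻¹ * x ∈ N := QuotientGroup.eq.1 hux
      have hn2 : u⁻¹ * x ∈ U := by
        apply hVU _ hn
        rw [map_mul, map_inv]
        exact hVV _ huV _ hxV
      have := hUW u huU _ hn2
      rwa [mul_inv_cancel_left] at this

/-- a closed subgroup of a minimal abelian group is minimal -/
theorem IsMinimalGroup.of_isClosed {A : Type u} [CommGroup A] [TopologicalSpace A]
    (hA : IsMinimalGroup A) (B : Subgroup A) (hB : IsClosed (B : Set A)) :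
    IsMinimalGroup B := by
  have := hA.1
  have := hA.2.1
  refine isMinimalGroup_of fun H _ _ _ _ g hg hgb => ?_
  have hcomm : ∀ h k : H, h * k = k * h := by
    intro h k
    obtain ⟨x, rfl⟩ := hgb.2 h
    obtain ⟨y, rfl⟩ := hgb.2 k
    rw [← map_mul, ← map_mul, mul_comm]
  let D : Subgroup (A × H) :=
    { carrier := {p | ∃ b : B, p = ((b : A), (g b)⁻¹)}
      mul_mem' := by
        rintro _ _ ⟨b, rfl⟩ ⟨c, rfl⟩
        refine ⟨b * c, ?_⟩
        rw [Prod.mk_mul_mk, map_mul, mul_inv_rev, hcomm (g b)⁻¹, Subgroup.coe_mul]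
      one_mem' := ⟨1, by simp; rfl⟩
      inv_mem' := by
        rintro _ ⟨b, rfl⟩
        refine ⟨b⁻¹, ?_⟩
        rw [Prod.inv_mk, map_inv, Subgroup.coe_inv] }
  have hD : ∀ p : A × H, p ∈ D ↔ ∃ b : B, p = ((b : A), (g b)⁻¹) := fun p => Iff.rfl
  have : D.Normal := by
    constructor
    rintro _ ⟨b, rfl⟩ ⟨a, h⟩
    refine ⟨b, ?_⟩
    rw [Prod.mk_mul_mk, Prod.inv_mk, Prod.mk_mul_mk, hcomm h, mul_inv_cancel_right,
      mul_comm a, mul_inv_cancel_right]
  have hDc : IsClosed (D : Set (A × H)) := by
    have h1 : IsClosed {p : B × H | g p.1 * p.2 = 1} :=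
      isClosed_eq ((hg.comp continuous_fst).mul continuous_snd) continuous_const
    have h2 : IsClosedEmbedding (Prod.map (Subtype.val : B → A) (id : H → H)) :=
      (hB.isClosedEmbedding_subtypeVal).prodMap .id
    have h3 := h2.isClosedMap _ h1
    have h4 : (D : Set (A × H)) = Prod.map (Subtype.val : B → A) (id : H → H) ''
        {p : B × H | g p.1 * p.2 = 1} := by
      ext p
      constructor
      · rintro ⟨b, rfl⟩
        exact ⟨(b, (g b)⁻¹), mul_inv_cancel _, rfl⟩
      · rintro ⟨⟨b, h⟩, hbh, rfl⟩
        refine ⟨b, ?_⟩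
        have h5 : g b * h = 1 := hbh
        rw [← eq_inv_of_mul_eq_one_right h5]
        rfl
    rw [h4]
    exact h3
  let ι : A →* (A × H) ⧸ D := (QuotientGroup.mk' D).comp (MonoidHom.inl A H)
  let j : H →* (A × H) ⧸ D := (QuotientGroup.mk' D).comp (MonoidHom.inr A H)
  have hιc : Continuous ι :=
    QuotientGroup.continuous_mk.comp (continuous_id.prodMk continuous_const)
  have hjc : Continuous j :=
    QuotientGroup.continuous_mk.comp (continuous_const.prodMk continuous_id)
  have hιi : Function.Injective ι := by
    rw [injective_iff_map_eq_one]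
    intro a ha
    have h1 : ((a, 1) : A × H) ∈ D := (QuotientGroup.eq_one_iff _).1 ha
    obtain ⟨b, hb⟩ := (hD _).1 h1
    rw [Prod.mk.injEq] at hb
    have h2 : g b = 1 := by rw [← inv_eq_one, ← hb.2]
    rw [← map_one g] at h2
    rw [hb.1, hgb.1 h2, Subgroup.coe_one]
  have h1 : IsInducing ι := hA.isInducing ι hιc hιi
  have h2 : (ι ∘ (Subtype.val : B → A)) = j ∘ g := by
    funext b
    change ((((b : A), (1 : H)) : A × H) : (A × H) ⧸ D) = (((1 : A), g b) : A × H)
    rw [QuotientGroup.eq]
    refine ⟨b⁻¹, ?_⟩
    rw [Prod.inv_mk, Prod.mk_mul_mk, map_inv, inv_inv, inv_one, one_mul, mul_one,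
      Subgroup.coe_inv]
  have h3 : IsInducing (j ∘ g) := by
    rw [← h2]
    exact h1.comp IsInducing.subtypeVal
  exact h3.of_comp hg hjc

/-- a closed continuous homomorphism with compact kernel to a minimal abelian group -/
theorem isMinimalGroup_of_perfect {H A : Type u} [Group H] [TopologicalSpace H] [T2Space H]
    [IsTopologicalGroup H] [CommGroup A] [TopologicalSpace A]
    (hA : IsMinimalGroup A) (f : H →* A) (hf : Continuous f) (hc : IsClosedMap f)
    (hk : IsCompact (f.ker : Set H)) : IsMinimalGroup H := by
  have := hA.1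
  have := hA.2.1
  have : IsClosed (f.ker : Set H) := hk.isClosed
  have hr : IsClosed (f.range : Set A) := by
    rw [MonoidHom.coe_range]
    exact hc.isClosed_range
  have hB : IsMinimalGroup f.range := hA.of_isClosed f.range hr
  refine isMinimalGroup_of_quotient f.ker hk ?_
  let φ : H ⧸ f.ker →* f.range := (QuotientGroup.quotientKerEquivRange f).toMonoidHom
  have hφ : ∀ x : H, (φ (x : H ⧸ f.ker) : A) = f x := fun x => rfl
  refine hB.of_iso φ ?_ (QuotientGroup.quotientKerEquivRange f).bijective ?_
  · have : Continuous (φ ∘ (QuotientGroup.mk : H → H ⧸ f.ker)) :=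
      (hf.subtype_mk fun x => ⟨x, rfl⟩ : Continuous fun x => (⟨f x, ⟨x, rfl⟩⟩ : f.range))
    exact (QuotientGroup.isQuotientMap_mk _).continuous_iff.2 this
  · intro C hC
    have h1 : IsClosed (f '' (QuotientGroup.mk ⁻¹' C : Set H)) :=
      hc _ (hC.preimage QuotientGroup.continuous_mk)
    have h2 : (φ '' C : Set f.range) = Subtype.val ⁻¹' (f '' (QuotientGroup.mk ⁻¹' C : Set H)) := by
      ext y
      constructor
      · rintro ⟨x, hx, rfl⟩
        induction x using QuotientGroup.induction_on with
        | H x => exact ⟨x, hx, rfl⟩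
      · rintro ⟨x, hx, hxy⟩
        exact ⟨(x : H ⧸ f.ker), hx, Subtype.ext hxy⟩
    rw [h2]
    exact h1.preimage continuous_subtype_val

/-- a closed continuous homomorphism with compact kernel to a totally minimal abelian group -/
theorem isTotallyMinimalGroup_of_perfect {H A : Type u} [Group H] [TopologicalSpace H] [T2Space H]
    [IsTopologicalGroup H] [CommGroup A] [TopologicalSpace A]
    (hA : IsTotallyMinimalGroup A) (f : H →* A) (hf : Continuous f)
    (hc : IsClosedMap f) (hk : IsCompact (f.ker : Set H)) :
    IsTotallyMinimalGroup H := by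
  have := hA.1
  have := hA.2.1
  refine ⟨inferInstance, inferInstance, fun M _ hM => ?_⟩
  have := hM
  have hL : IsClosed ((M.map f : Subgroup A) : Set A) := by
    rw [Subgroup.coe_map]
    exact hc _ hM
  have := hL
  have hQ : IsMinimalGroup (A ⧸ M.map f) := hA.2.2 (M.map f) hL
  let F : H ⧸ M →* A ⧸ M.map f := QuotientGroup.map M (M.map f) f (Subgroup.le_comap_map f M)
  have hFmk : ∀ x : H, F (x : H ⧸ M) = ((f x : A) : A ⧸ M.map f) := fun x => rfl
  refine isMinimalGroup_of_perfect hQ F ?_ ?_ ?_
  · have : Continuous (F ∘ (QuotientGroup.mk : H → H ⧸ M)) :=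
      (QuotientGroup.continuous_mk.comp hf : Continuous fun x => ((f x : A) : A ⧸ M.map f))
    exact (QuotientGroup.isQuotientMap_mk _).continuous_iff.2 this
  · intro C hC
    rw [← (QuotientGroup.isQuotientMap_mk _).isClosed_preimage]
    have h1 : IsClosed (f '' (QuotientGroup.mk ⁻¹' C : Set H)) :=
      hc _ (hC.preimage QuotientGroup.continuous_mk)
    convert h1 using 1
    ext a
    constructor
    · rintro ⟨x, hx, hxa⟩
      induction x using QuotientGroup.induction_on with
      | H x =>
      rw [hFmk, QuotientGroup.eq] at hxa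
      obtain ⟨m, hm, hma⟩ := hxa
      refine ⟨x * m, ?_, ?_⟩
      · change ((x * m : H) : H ⧸ M) ∈ C
        rwa [QuotientGroup.mk_mul_of_mem x hm]
      · rw [map_mul, hma, mul_inv_cancel_left]
    · rintro ⟨x, hx, rfl⟩
      exact ⟨(x : H ⧸ M), hx, rfl⟩
  · have h1 : IsCompact ((QuotientGroup.mk : H → H ⧸ M) '' (f.ker : Set H)) :=
      hk.image QuotientGroup.continuous_mk
    convert h1 using 1
    ext x
    constructor
    · intro hx
      induction x using QuotientGroup.induction_on with
      | H x =>
      have h2 : F (x : H ⧸ M) = 1 := hx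
      rw [hFmk, QuotientGroup.eq_one_iff] at h2
      obtain ⟨m, hm, hmx⟩ := h2
      refine ⟨x * m⁻¹, ?_, ?_⟩
      · change f (x * m⁻¹) = 1
        rw [map_mul, map_inv, hmx, mul_inv_cancel]
      · exact QuotientGroup.mk_mul_of_mem x (M.inv_mem hm)
    · rintro ⟨y, hy, rfl⟩
      change F (y : H ⧸ M) = 1
      have hy' : f y = 1 := hy
      rw [hFmk, hy', QuotientGroup.mk_one]

/-- the restriction of the projection to a closed subgroup of a product with a compact group -/
theorem proj_perfect {A K : Type u} [CommGroup A] [TopologicalSpace A] [T2Space A]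
    [Group K] [TopologicalSpace K] [CompactSpace K] (H : Subgroup (A × K))
    (hH : IsClosed (H : Set (A × K))) :
    Continuous ((MonoidHom.fst A K).comp H.subtype) ∧
      IsClosedMap ((MonoidHom.fst A K).comp H.subtype) ∧
      IsCompact ((((MonoidHom.fst A K).comp H.subtype).ker : Subgroup H) : Set H) := by
  have he : IsClosedEmbedding (Subtype.val : H → A × K) := hH.isClosedEmbedding_subtypeVal
  refine ⟨continuous_fst.comp continuous_subtype_val, ?_, ?_⟩
  · exact (isClosedMap_fst_of_compactSpace (X := A) (Y := K)).comp he.isClosedMap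
  · have h1 : IsCompact (({1} : Set A) ×ˢ (univ : Set K)) := isCompact_singleton.prod isCompact_univ
    have h2 := he.isCompact_preimage h1
    convert h2 using 1
    ext x
    constructor
    · intro hx
      exact ⟨hx, trivial⟩
    · intro hx
      exact hx.1

theorem cMinimal_prod {A K : Type u} [CommGroup A] [TopologicalSpace A] [Group K]
    [TopologicalSpace K] [IsTopologicalGroup K] [T2Space K] [CompactSpace K]
    (hA : IsMinimalGroup A) : IsCMinimalGroup (A × K) := by
  have := hA.1
  have := hA.2.1
  intro H hH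
  obtain ⟨h1, h2, h3⟩ := proj_perfect H hH
  exact isMinimalGroup_of_perfect hA _ h1 h2 h3

theorem cTotallyMinimal_prod {A K : Type u} [CommGroup A] [TopologicalSpace A] [Group K]
    [TopologicalSpace K] [IsTopologicalGroup K] [T2Space K] [CompactSpace K]
    (hA : IsTotallyMinimalGroup A) :
    IsCTotallyMinimalGroup (A × K) := by
  have := hA.1
  have := hA.2.1
  intro H hH
  obtain ⟨h1, h2, h3⟩ := proj_perfect H hH
  exact isTotallyMinimalGroup_of_perfect hA _ h1 h2 h3

end Pool.Agent.H769CMin
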